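import Pool.Agent.Helper75.OWN.Herm

set_option autoImplicit false

open Polynomial

namespace Pool.Agent.Results.MP_062089_al.LocalDomain

/-- Every module which becomes free after adding a finite free module is free. -/
def IsHermite (R : Type) [CommRing R] : Prop :=
  ∀ (M : Type) [AddCommGroup M] [Module R M] (n m : ℕ),
    Nonempty ((M × (Fin n → R)) ≃ₗ[R] (Fin m → R)) → Module.Free R M

/-- The entries of the row generate the unit ideal. -/
def Unimodular {R : Type} [CommRing R] (v : Fin 3 → R) : Prop :=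
  ∃ w : Fin 3 → R, ∑ i, v i * w i = 1

/-- The row is the first row of an invertible matrix. -/
def Completable {R : Type} [CommRing R] (v : Fin 3 → R) : Prop :=
  ∃ M : Matrix (Fin 3) (Fin 3) R, IsUnit M.det ∧ M 0 = v

/-- Some module which is not free has direct sum with the ring free of rank three. -/
def HasRankTwo (R : Type) [CommRing R] : Prop :=
  ∃ (P : Type) (_ : AddCommGroup P) (_ : Module R P),
    Nonempty ((P × R) ≃ₗ[R] (Fin 3 → R)) ∧ ¬ Module.Free R P

theorem result (K : Type) [Field K] [CharP K 2] :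
    ∃ (A : Type) (_ : CommRing A) (_ : Algebra K A), IsDomain A ∧ IsLocalRing A ∧
      ringKrullDim A ≤ 2 ∧ IsHermite A ∧ HasRankTwo A[X] ∧
      ∃ v : Fin 3 → A[X], Unimodular v ∧ ¬ Completable v := by
  obtain ⟨A, i1, i2, h1, h2, h3, h4, v, w, hvw, hv, P, -, h5, h6⟩ :=
    Pool.Agent.Helper75.OWN.main K
  exact ⟨A, i1, i2, h1, h2, h3, h4, ⟨P, inferInstance, inferInstance, h5, h6⟩, v, ⟨w, hvw⟩, hv⟩

end Pool.Agent.Results.MP_062089_al.LocalDomain
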